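import Pool.Agent.Lib.MP_a13a54_lc.TypB
import Pool.Agent.Lib.MP_a13a54_lc.Chain
import Pool.Agent.Lib.MP_a13a54_lc.Ind

/-!
# MP_a13a54_lc: the case `𝔠 = ℵ₁` of Martin's axiom

If the continuum is `ℵ₁` then Martin's axiom holds and there is an infinite Boolean algebra with the
Nikodym property all of whose finitely additive probabilities have countable type; in particular
all its independent families are countable.
-/

namespace Pool.Agent.Results.MP_a13a54_lc.CaseCH

open Cardinal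

/-- `μ` is a measure on `A`: additive on disjoint elements and bounded. -/
structure IsMeasure {A : Type} [BooleanAlgebra A] (μ : A → ℝ) : Prop where
  additive : ∀ a b : A, Disjoint a b → μ (a ⊔ b) = μ a + μ b
  bounded : ∃ M : ℝ, ∀ a : A, |μ a| ≤ M

/-- The norm of `μ`: the supremum of `|μ a| + |μ b|` over disjoint `a`, `b`. -/
noncomputable def tv {A : Type} [BooleanAlgebra A] (μ : A → ℝ) : ℝ :=
  sSup {t | ∃ a b : A, a ⊓ b = ⊥ ∧ t = |μ a| + |μ b|}

/-- The Nikodym property: a pointwise bounded sequence of measures is uniformly bounded. -/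
def HasNikodym (A : Type) [BooleanAlgebra A] : Prop :=
  ∀ μ : ℕ → A → ℝ, (∀ n, IsMeasure (μ n)) → (∀ a, ∃ M : ℝ, ∀ n, |μ n a| ≤ M) →
    ∃ M : ℝ, ∀ n, tv (μ n) ≤ M

/-- `F` is an independent family. -/
def IsIndependent {A : Type} [BooleanAlgebra A] (F : Set A) : Prop :=
  ∀ s t : Finset A, (s : Set A) ⊆ F → (t : Set A) ⊆ F → Disjoint s t →
    s.inf id ⊓ t.inf (fun b => bᶜ) ≠ ⊥

/-- Every finitely additive probability `μ` on `A` has countable type: a countable set `D` is dense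
for the distance given by the measure of the symmetric difference. -/
def AllCountableType (A : Type) [BooleanAlgebra A] : Prop :=
  ∀ μ : A → ℝ, IsMeasure μ → (∀ a, 0 ≤ μ a) → μ ⊤ = 1 →
    ∃ D : Set A, D.Countable ∧ ∀ a, ∀ ε > 0, ∃ d ∈ D, μ ((a \ d) ⊔ (d \ a)) < ε

/-- Martin's axiom. -/
def MartinAxiom : Prop :=
  ∀ (P : Type) (_ : PartialOrder P) (_ : Nonempty P),
    (∀ X : Set P, (∀ p ∈ X, ∀ q ∈ X, p ≠ q → ¬ ∃ r, r ≤ p ∧ r ≤ q) → X.Countable) →
    ∀ 𝒟 : Set (Set P), #𝒟 < 𝔠 → (∀ D ∈ 𝒟, ∀ p, ∃ q ∈ D, q ≤ p) →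
      ∃ G : Set P, G.Nonempty ∧ (∀ p ∈ G, ∀ q, p ≤ q → q ∈ G) ∧
        (∀ p ∈ G, ∀ q ∈ G, ∃ r ∈ G, r ≤ p ∧ r ≤ q) ∧ ∀ D ∈ 𝒟, (D ∩ G).Nonempty

theorem martin (hCH : (𝔠 : Cardinal.{0}) = ℵ_ 1) : MartinAxiom := by
  intro P _ _ _ 𝒟 h𝒟 hd
  have hc : 𝒟.Countable := by
    rw [hCH, ← succ_aleph0, Order.lt_succ_iff] at h𝒟
    exact Cardinal.le_aleph0_iff_set_countable.1 h𝒟
  obtain ⟨p0⟩ := ‹Nonempty P›
  rcases 𝒟.eq_empty_or_nonempty with h0 | h0
  · refine ⟨{q | p0 ≤ q}, ⟨p0, le_rfl⟩, fun p hp q hpq => le_trans hp hpq,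
      fun p hp q hq => ⟨p0, le_rfl, hp, hq⟩, fun D hD => ?_⟩
    rw [h0] at hD
    exact absurd hD (Set.notMem_empty _)
  · obtain ⟨e, he⟩ := hc.exists_eq_range h0
    have hd' : ∀ (n : ℕ) (p : P), ∃ q ∈ e n, q ≤ p := fun n => hd (e n) (by rw [he]; exact ⟨n, rfl⟩)
    choose g hg1 hg2 using hd'
    let s : ℕ → P := fun n => Nat.rec p0 (fun n p => g n p) n
    have hs : ∀ n, s (n + 1) = g n (s n) := fun _ => rfl
    have hanti : Antitone s := antitone_nat_of_succ_le fun n => by rw [hs]; exact hg2 _ _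
    refine ⟨{q | ∃ n, s n ≤ q}, ⟨p0, 0, le_rfl⟩, fun p ⟨n, hn⟩ q hpq => ⟨n, hn.trans hpq⟩, ?_, ?_⟩
    · rintro p ⟨n, hn⟩ q ⟨m, hm⟩
      exact ⟨s (max n m), ⟨_, le_rfl⟩, (hanti (le_max_left _ _)).trans hn,
        (hanti (le_max_right _ _)).trans hm⟩
    · intro D hD
      rw [he] at hD
      obtain ⟨n, rfl⟩ := hD
      exact ⟨s (n + 1), by rw [hs]; exact hg1 _ _, n + 1, le_rfl⟩

section

open Pool.Agent.Lib.MP_a13a54_lc Classical

/-- The extension of a function on a subalgebra by zero. -/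
private noncomputable def ext0 (A : BooleanSubalgebra (Set ℕ)) (μ : A → ℝ) (a : Set ℕ) : ℝ :=
  if h : a ∈ A then μ ⟨a, h⟩ else 0

private theorem ext0_eq (A : BooleanSubalgebra (Set ℕ)) (μ : A → ℝ) {a : Set ℕ} (h : a ∈ A) :
    ext0 A μ a = μ ⟨a, h⟩ := dif_pos h

private theorem ext0_add (A : BooleanSubalgebra (Set ℕ)) (μ : A → ℝ) (h : IsMeasure μ) :
    AddOn A (ext0 A μ) := by
  intro a ha b hb hab
  rw [ext0_eq A μ ha, ext0_eq A μ hb, ext0_eq A μ (union_mem' ha hb)]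
  have hd : Disjoint (⟨a, ha⟩ : A) ⟨b, hb⟩ := by
    rw [disjoint_iff]
    apply Subtype.ext
    exact disjoint_iff.1 hab
  exact h.additive _ _ hd

/-- **The case `𝔠 = ℵ₁`.** -/
theorem result (hCH : (𝔠 : Cardinal.{0}) = ℵ_ 1) :
    MartinAxiom ∧ ∃ (A : Type) (_ : BooleanAlgebra A), Infinite A ∧ HasNikodym A ∧
      (∀ F : Set A, IsIndependent F → F.Countable) ∧ AllCountableType A := by
  refine ⟨martin hCH, ?_⟩
  set S : Set (Set ℕ) := Set.range fun n : ℕ => ({n} : Set ℕ) with hS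
  have hSc : S.Countable := Set.countable_range _
  obtain ⟨Ω, i1, i2, hc, hu, τ, hτ, x, hG, hx⟩ := chain hCH S
  set A := Aw S x with hA
  have htype : AllCountableType A := by
    intro μ hμ h0 _
    obtain ⟨D, hD, hDA, hDn⟩ := typ hSc hc hu x τ hG hx (lam := ext0 A μ)
      ⟨ext0_add A μ hμ, fun a ha => by rw [ext0_eq A μ ha]; exact h0 _⟩
    refine ⟨Subtype.val ⁻¹' D, hD.preimage Subtype.val_injective, fun a ε hε => ?_⟩
    obtain ⟨d, hd, hlt⟩ := hDn a.1 a.2 ε hε
    have hdA := hDA d hd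
    refine ⟨⟨d, hdA⟩, hd, ?_⟩
    rw [ext0_eq A μ (union_mem' (diff_mem' a.2 hdA) (diff_mem' hdA a.2))] at hlt
    exact hlt
  refine ⟨A, inferInstance, ?_, ?_, ?_, htype⟩
  · refine Infinite.of_injective (fun n : ℕ => (⟨{n}, subset_alg _ (Or.inl ⟨n, rfl⟩)⟩ : A))
      fun n m h => ?_
    exact Set.singleton_injective (congrArg Subtype.val h)
  · intro μ hμ hp
    obtain ⟨M, hM⟩ := nik hSc hc hu x τ hτ hG (fun n => ext0 A (μ n))
      (fun n => ext0_add A (μ n) (hμ n))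
      (fun n => by
        obtain ⟨B, hB⟩ := (hμ n).bounded
        exact ⟨B, fun a ha => by rw [ext0_eq A (μ n) ha]; exact hB _⟩)
      (fun a ha => by
        obtain ⟨B, hB⟩ := hp ⟨a, ha⟩
        exact ⟨B, fun n => by rw [ext0_eq A (μ n) ha]; exact hB _⟩)
    have hM' : ∀ n (a : A), |μ n a| ≤ M := fun n a => by
      have := hM n a.1 a.2
      rwa [ext0_eq A (μ n) a.2] at this
    refine ⟨M + M, fun n => csSup_le ⟨_, ⊥, ⊥, inf_idem ⊥, rfl⟩ ?_⟩
    rintro t ⟨a, b, _, rfl⟩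
    exact add_le_add (hM' n a) (hM' n b)
  · intro F hF
    obtain ⟨lam, hl1, hl2, hl3, hl4⟩ := exists_lam (Subtype.val '' F) (by
      intro s t hs ht hst
      have h1 := hF (s.preimage Subtype.val Subtype.val_injective.injOn)
        (t.preimage Subtype.val Subtype.val_injective.injOn)
        (fun a ha => by
          obtain ⟨b, hb, e⟩ := hs (Finset.mem_preimage.1 ha)
          rwa [← Subtype.ext e])
        (fun a ha => by
          obtain ⟨b, hb, e⟩ := ht (Finset.mem_preimage.1 ha)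
          rwa [← Subtype.ext e])
        (by
          rw [Finset.disjoint_left] at hst ⊢
          intro a ha hb
          exact hst (Finset.mem_preimage.1 ha) (Finset.mem_preimage.1 hb))
      by_contra h2
      rw [Set.not_nonempty_iff_eq_empty] at h2
      refine h1 ?_
      apply Subtype.ext
      refine Set.subset_empty_iff.1 ?_
      rw [← h2]
      have e1 : ∀ u : Finset A, ((u.inf id : A) : Set ℕ) ⊆ ⋂ a ∈ u, (a : Set ℕ) := by
        intro u z hz
        refine Set.mem_iInter₂.2 fun a ha => ?_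
        exact (Finset.inf_le (f := id) ha : u.inf id ≤ a) hz
      have e2 : ∀ u : Finset A, ((u.inf (fun b => bᶜ) : A) : Set ℕ) ⊆ ⋂ a ∈ u, (a : Set ℕ)ᶜ := by
        intro u z hz
        refine Set.mem_iInter₂.2 fun a ha => ?_
        exact (Finset.inf_le (f := fun b : A => bᶜ) ha : u.inf (fun b => bᶜ) ≤ aᶜ) hz
      rintro z ⟨hz1, hz2⟩
      refine ⟨Set.mem_iInter₂.2 fun a ha => ?_, Set.mem_iInter₂.2 fun a ha => ?_⟩
      · obtain ⟨b, hb, rfl⟩ := hs ha
        exact Set.mem_iInter₂.1 (e1 _ hz1) b (Finset.mem_preimage.2 ha)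
      · obtain ⟨b, hb, rfl⟩ := ht ha
        exact Set.mem_iInter₂.1 (e2 _ hz2) b (Finset.mem_preimage.2 ha))
    obtain ⟨D, hD, hDn⟩ := htype (fun a : A => lam a.1)
      ⟨fun a b hab => hl1 _ _ (by
        rw [disjoint_iff] at hab ⊢
        exact congrArg Subtype.val hab), ⟨1, fun a => by
        rw [abs_of_nonneg (hl2 _)]
        have h1 := hl1 a.1 a.1ᶜ disjoint_compl_right
        rw [Set.union_compl_self, hl3] at h1
        linarith [hl2 a.1ᶜ]⟩⟩ (fun a => hl2 _) hl3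
    choose g hg1 hg2 using fun a : A => hDn a (1 / 4) (by norm_num)
    have hinj : Set.InjOn g F := by
      intro a ha b hb hab
      by_contra hne
      have h1 := hl4 a.1 ⟨a, ha, rfl⟩ b.1 ⟨b, hb, rfl⟩ fun e => hne (Subtype.ext e)
      have h2 := hg2 a
      have h3 := hg2 b
      rw [← hab] at h3
      have hmono : ∀ u v : Set ℕ, u ⊆ v → lam u ≤ lam v := by
        intro u v huv
        have := hl1 u (v \ u) disjoint_sdiff_self_right
        rw [Set.union_sdiff_cancel huv] at this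
        linarith [hl2 (v \ u)]
      have hsub : ∀ u v : Set ℕ, lam (u ∪ v) ≤ lam u + lam v := by
        intro u v
        have := hl1 u (v \ u) disjoint_sdiff_self_right
        rw [Set.union_sdiff_self] at this
        linarith [hmono (v \ u) v Set.sdiff_subset]
      have h4 : lam ((a.1 \ b.1) ∪ (b.1 \ a.1)) ≤
          lam ((a.1 \ (g a).1) ∪ ((g a).1 \ a.1)) + lam ((b.1 \ (g a).1) ∪ ((g a).1 \ b.1)) := by
        refine (hmono _ _ ?_).trans (hsub _ _)
        intro z hz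
        simp only [Set.mem_union, Set.mem_sdiff] at hz ⊢
        tauto
      have h5 : lam ((a.1 \ (g a).1) ∪ ((g a).1 \ a.1)) < 1 / 4 := h2
      have h6 : lam ((b.1 \ (g a).1) ∪ ((g a).1 \ b.1)) < 1 / 4 := h3
      linarith
    exact Set.countable_of_injective_of_countable_image hinj (hD.mono (by
      rintro _ ⟨a, _, rfl⟩
      exact hg1 a))

end

end Pool.Agent.Results.MP_a13a54_lc.CaseCH
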